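import Pool.Agent.Lib.MP_9fb481_co.Geom

set_option autoImplicit false

namespace Pool.Agent.Results.MP_9fb481_co.Faces49

/-- There is a saturated packing of unit balls in three-space with a Voronoi cell that has
exactly 49 two-dimensional faces (neighbours). -/
theorem result : ∃ P : Set (EuclideanSpace ℝ (Fin 3)),
    (∀ p ∈ P, ∀ q ∈ P, p ≠ q → 2 ≤ dist p q) ∧
    (∀ z, ∃ q ∈ P, dist z q < 2) ∧
    ∃ p ∈ P, {q | q ∈ P ∧ q ≠ p ∧ Module.finrank ℝ (vectorSpan ℝ
      ({x | ∀ r ∈ P, dist x p ≤ dist x r} ∩ {x | ∀ r ∈ P, dist x q ≤ dist x r})) = 2}.ncard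
      = 49 :=
  Pool.Agent.Lib.MP_9fb481_co.main

end Pool.Agent.Results.MP_9fb481_co.Faces49
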